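import Pool.Agent.N813.PC.Real

/-!
# Project PC: fixed points of lifts, attracting or repelling
-/

set_option autoImplicit false

open scoped Topology
open Filter Set Metric

namespace Pool.Agent.N813.PC

open Pool.Agent.N813.CX

theorem sign_const {f : ℝ → ℝ} (hf : Continuous f) {a b : ℝ} (h : ∀ s ∈ Ioo a b, f s ≠ 0) :
    (∀ s ∈ Ioo a b, 0 < f s) ∨ (∀ s ∈ Ioo a b, f s < 0) := by
  by_contra hcon
  push Not at hcon
  obtain ⟨⟨s, hs, hs0⟩, t, ht, ht0⟩ := hcon
  have h1 := intermediate_value_uIcc (a := s) (b := t) hf.continuousOn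
  obtain ⟨c, hc, hc0⟩ := h1 (show (0 : ℝ) ∈ uIcc (f s) (f t) from by
    rw [mem_uIcc]
    exact Or.inl ⟨hs0, ht0⟩)
  have hcI : c ∈ Ioo a b := by
    rcases mem_uIcc.1 hc with hc | hc
    · exact ⟨lt_of_lt_of_le hs.1 hc.1, lt_of_le_of_lt hc.2 ht.2⟩
    · exact ⟨lt_of_lt_of_le ht.1 hc.1, lt_of_le_of_lt hc.2 hs.2⟩
  exact h c hcI hc0

theorem it_mem_up {k : ℝ → ℝ} (hm : Monotone k) {a s u : ℝ} (hs1 : a ≤ s) (hs2 : s ≤ u)
    (ha : a ≤ k a) (hu : k u ≤ u) (j : ℕ) : a ≤ k^[j] s ∧ k^[j] s ≤ u := by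
  induction j with
  | zero => exact ⟨hs1, hs2⟩
  | succ j ih =>
    rw [Function.iterate_succ_apply']
    exact ⟨ha.trans (hm ih.1), (hm ih.2).trans hu⟩

/-- an isolated fixed point of a lift is attracting or repelling if there is no one-sided tangency -/
theorem alt_real {k : ℝ → ℝ} (hc : Continuous k) (hm : Monotone k) (h1 : ∀ s, k (s + 1) = k s + 1)
    {w : ℝ} (hw : k w = w) {ε : ℝ} (hε : 0 < ε) (hε1 : ε ≤ 1 / 2)
    (hiso : ∀ s, |s - w| < ε → k s = s → s = w)
    (hno1 : ¬ ∀ᶠ s in 𝓝 w, s ≤ k s) (hno2 : ¬ ∀ᶠ s in 𝓝 w, k s ≤ s) :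
    (∀ s, |s - w| < ε → Tendsto (fun j => k^[j] s) atTop (𝓝 w)) ∨
    (∀ s, 0 < |s - w| → |s - w| < ε → ∀ w', Tendsto (fun j => k^[j] s) atTop (𝓝 w') →
      ¬ ∃ i : ℤ, w' = w + i) := by
  have hcs : Continuous fun s => k s - s := hc.sub continuous_id
  have hR := sign_const (a := w) (b := w + ε) hcs (fun s hs h0 => by
    have := hiso s (by rw [abs_of_pos (by linarith [hs.1])]; linarith [hs.2]) (by linarith)
    linarith [hs.1])
  have hL := sign_const (a := w - ε) (b := w) hcs (fun s hs h0 => by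
    have := hiso s (by rw [abs_of_neg (by linarith [hs.2])]; linarith [hs.1]) (by linarith)
    linarith [hs.2])
  have hnb : ∀ P : ℝ → Prop, (∀ s ∈ Ioo w (w + ε), P s) → (∀ s ∈ Ioo (w - ε) w, P s) → P w →
      ∀ᶠ s in 𝓝 w, P s := by
    intro P h2 h3 h4
    filter_upwards [Ioo_mem_nhds (show w - ε < w by linarith) (show w < w + ε by linarith)] with s hs
    rcases lt_trichotomy s w with h | h | h
    · exact h3 s ⟨hs.1, h⟩
    · rw [h]; exact h4
    · exact h2 s ⟨h, hs.2⟩
  rcases hR with hR | hR <;> rcases hL with hL | hL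
  · exact absurd (hnb (fun s => s ≤ k s) (fun s hs => by have := hR s hs; linarith)
      (fun s hs => by have := hL s hs; linarith) hw.ge) hno1
  · -- repelling
    right
    intro s hs0 hs w' hlim
    rintro ⟨i, hi⟩
    rcases lt_trichotomy s w with h | h | h
    · have hsI : s ∈ Ioo (w - ε) w := ⟨by rw [abs_of_neg (by linarith)] at hs; linarith, h⟩
      have hks := hL s hsI
      obtain ⟨u, hu⟩ : ∃ u, u = (w - 1 + min s (w - 1 + ε)) / 2 := ⟨_, rfl⟩
      have hm1 := min_le_left s (w - 1 + ε)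
      have hm2 := min_le_right s (w - 1 + ε)
      have hm3 : w - 1 < min s (w - 1 + ε) := lt_min (by linarith [hsI.1]) (by linarith)
      have huR : u + 1 ∈ Ioo w (w + ε) := ⟨by linarith, by linarith⟩
      have hku := hR (u + 1) huR
      have hku' : u ≤ k u := by
        have := h1 u
        linarith
      have hbd : ∀ j, u ≤ k^[j] s ∧ k^[j] s ≤ s := fun j =>
        it_mem_up hm (by linarith) le_rfl hku' (by linarith) j
      have e1 : u ≤ w' := ge_of_tendsto' hlim fun j => (hbd j).1
      have e2 : w' ≤ s := le_of_tendsto' hlim fun j => (hbd j).2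
      have e3 : (i : ℝ) < 0 := by linarith
      have e4 : (-1 : ℝ) < i := by linarith
      have e5 : i < 0 := by exact_mod_cast e3
      have e6 : -1 < i := by exact_mod_cast e4
      omega
    · rw [h, sub_self, abs_zero] at hs0
      exact lt_irrefl _ hs0
    · have hsI : s ∈ Ioo w (w + ε) := ⟨h, by rw [abs_of_pos (by linarith)] at hs; linarith⟩
      have hks := hR s hsI
      obtain ⟨u, hu⟩ : ∃ u, u = (w + 1 + max s (w + 1 - ε)) / 2 := ⟨_, rfl⟩
      have hm1 := le_max_left s (w + 1 - ε)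
      have hm2 := le_max_right s (w + 1 - ε)
      have hm3 : max s (w + 1 - ε) < w + 1 := max_lt (by linarith [hsI.2]) (by linarith)
      have huL : u - 1 ∈ Ioo (w - ε) w := ⟨by linarith, by linarith⟩
      have hku := hL (u - 1) huL
      have hku' : k u ≤ u := by
        have := h1 (u - 1)
        rw [sub_add_cancel] at this
        linarith
      have hbd : ∀ j, s ≤ k^[j] s ∧ k^[j] s ≤ u := fun j =>
        it_mem_up hm le_rfl (by linarith) (by linarith) hku' j
      have e1 : s ≤ w' := ge_of_tendsto' hlim fun j => (hbd j).1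
      have e2 : w' ≤ u := le_of_tendsto' hlim fun j => (hbd j).2
      have e3 : (0 : ℝ) < i := by linarith
      have e4 : (i : ℝ) < 1 := by linarith
      have e5 : 0 < i := by exact_mod_cast e3
      have e6 : i < 1 := by exact_mod_cast e4
      omega
  · -- attracting
    left
    intro s hs
    obtain ⟨w', hw', hlim⟩ := lim_fix hc hm h1 hw s
    have hww : w' = w := by
      rcases lt_trichotomy s w with h | h | h
      · have hsI : s ∈ Ioo (w - ε) w := ⟨by rw [abs_of_neg (by linarith)] at hs; linarith, h⟩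
        have hks := hL s hsI
        have hbd : ∀ j, s ≤ k^[j] s ∧ k^[j] s ≤ w := fun j =>
          it_mem_up hm le_rfl h.le (by linarith) hw.le j
        have e1 : s ≤ w' := ge_of_tendsto' hlim fun j => (hbd j).1
        have e2 : w' ≤ w := le_of_tendsto' hlim fun j => (hbd j).2
        exact hiso w' (by rw [abs_lt]; constructor <;> linarith [hsI.1]) hw'
      · have hbd : ∀ j, w ≤ k^[j] s ∧ k^[j] s ≤ w := fun j =>
          it_mem_up hm h.ge h.le hw.ge hw.le j
        exact le_antisymm (le_of_tendsto' hlim fun j => (hbd j).2)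
          (ge_of_tendsto' hlim fun j => (hbd j).1)
      · have hsI : s ∈ Ioo w (w + ε) := ⟨h, by rw [abs_of_pos (by linarith)] at hs; linarith⟩
        have hks := hR s hsI
        have hbd : ∀ j, w ≤ k^[j] s ∧ k^[j] s ≤ s := fun j =>
          it_mem_up hm h.le le_rfl hw.ge (by linarith) j
        have e1 : w ≤ w' := ge_of_tendsto' hlim fun j => (hbd j).1
        have e2 : w' ≤ s := le_of_tendsto' hlim fun j => (hbd j).2
        exact hiso w' (by rw [abs_lt]; constructor <;> linarith [hsI.2]) hw'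
    rw [← hww]
    exact hlim
  · exact absurd (hnb (fun s => k s ≤ s) (fun s hs => by have := hR s hs; linarith)
      (fun s hs => by have := hL s hs; linarith) hw.le) hno2

end Pool.Agent.N813.PC
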