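import Pool.Agent.N813.CX.Rec

/-!
# Project PC: `Ω`-stable diffeomorphisms with simple recurrence (definitions)
-/

set_option autoImplicit false

open scoped Manifold ContDiff Topology
open Filter Set Metric

universe u

namespace Pool.Agent.N813.PC

open Pool.Agent.H718R2.G Pool.Agent.TH80.OMS Pool.Agent.TH290.CL Pool.Agent.Y504.CO

/-- The orbit `C` of `z` under the smooth flow `ψ` is a closed curve (`ψ_t z = z` if and only if `t` is
an integer), `F^m(C) ⊆ C` (`F^m (ψ_t z) = ψ_(g(t)) z` with a continuous function `g`), and `C` does not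
meet `F(C), ..., F^(m-1)(C)`. -/
structure PerCurve (n : ℕ) (N : Type u) [TopologicalSpace N] [ChartedSpace (V n) N] (F : N → N)
    (z : N) (ψ : ℝ → N → N) (m : ℕ) (g : ℝ → ℝ) : Prop where
  flow : IsFlow n N ψ
  free : ∀ t : ℝ, ψ t z = z ↔ ∃ j : ℤ, t = j
  pos : 1 ≤ m
  cont : Continuous g
  ret : ∀ t, F^[m] (ψ t z) = ψ (g t) z
  disj : ∀ i, 0 < i → i < m → ∀ s t, F^[i] (ψ s z) ≠ ψ t z

/-- `F^m` is (topologically) Morse–Smale on the closed curve `C`, the orbit of `z` under `ψ`: for some
iterate `F^M`, there is at least one and there are only finitely many fixed points of `F^M` on `C`; for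
every `y ∈ C` the points `F^(Mj) y` converge to one of them; each of them either attracts a
neighbourhood in `C`, or attracts no other point of a neighbourhood in `C`; and every point of `C` which
is recurrent for `F` is one of them. -/
structure MorseSmaleOn {N : Type u} [TopologicalSpace N] (F : N → N) (z : N) (ψ : ℝ → N → N)
    (M : ℕ) : Prop where
  pos : 1 ≤ M
  ex : ∃ t, F^[M] (ψ t z) = ψ t z
  fin : {x | (∃ t, x = ψ t z) ∧ F^[M] x = x}.Finite
  lim : ∀ s, ∃ w, F^[M] (ψ w z) = ψ w z ∧
    Tendsto (fun j : ℕ => F^[M * j] (ψ s z)) atTop (𝓝 (ψ w z))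
  alt : ∀ w, F^[M] (ψ w z) = ψ w z → ∃ ε : ℝ, 0 < ε ∧
    ((∀ s, |s - w| < ε → Tendsto (fun j : ℕ => F^[M * j] (ψ s z)) atTop (𝓝 (ψ w z))) ∨
      ∀ s, 0 < |s - w| → |s - w| < ε →
        ¬ Tendsto (fun j : ℕ => F^[M * j] (ψ s z)) atTop (𝓝 (ψ w z)))
  recur : ∀ s, ψ s z ∈ Rec F → F^[M] (ψ s z) = ψ s z

/-- `z` lies on a periodic smooth closed curve of `F`: a smooth closed curve `C` (a closed orbit of
some smooth flow of `N`) with `F^m(C) = C` for some `m ≥ 1`, which does not meet
`F(C), ..., F^(m-1)(C)`. Nothing is assumed on the dynamics of `F^m` on `C`, nor on `F` outside of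
`C, F(C), ..., F^(m-1)(C)`. -/
def OnPerCurve (n : ℕ) (N : Type u) [TopologicalSpace N] [ChartedSpace (V n) N] (F : N → N)
    (z : N) : Prop :=
  ∃ (ψ : ℝ → N → N) (m : ℕ) (g : ℝ → ℝ), PerCurve n N F z ψ m g

/-- The recurrent points of `F` which are neither periodic, nor lie on a periodic smooth closed curve,
nor on a homogeneous periodic submanifold of positive dimension (for instance on a smooth torus on
which a power of `F` is a translation). -/
def Wild (n : ℕ) (N : Type u) [TopologicalSpace N] [ChartedSpace (V n) N] (F : N → N) : Set N :=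
  {z | z ∈ Rec F ∧ z ∉ Per F ∧ ¬ OnPerCurve n N F z ∧ ¬ IsHomPerInf n N F z}

end Pool.Agent.N813.PC
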