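import Pool.Agent.N813.CX.Rec

/-!
# Project PC: lifts of circle homeomorphisms
-/

set_option autoImplicit false

open scoped Topology
open Filter Set Metric

namespace Pool.Agent.N813.PC

open Pool.Agent.N813.CX

/-- a continuous function which is injective modulo one is the lift of a circle homeomorphism -/
theorem lift_cases {g : ℝ → ℝ} (hc : Continuous g)
    (hint : ∀ (t : ℝ) (j : ℤ), ∃ k : ℤ, g (t + j) = g t + k)
    (hinj : ∀ s t : ℝ, (∃ k : ℤ, g s = g t + k) → ∃ j : ℤ, s = t + j) :
    (StrictMono g ∧ ∀ t, g (t + 1) = g t + 1) ∨ (StrictAnti g ∧ ∀ t, g (t + 1) = g t - 1) := by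
  -- the degree
  obtain ⟨d, hd⟩ : ∃ d : ℤ, ∀ t, g (t + 1) = g t + d := by
    have h1 : ∀ t, ∃ k : ℤ, g (t + 1) - g t = k := fun t => by
      obtain ⟨k, hk⟩ := hint t 1
      exact ⟨k, by push_cast at hk; rw [hk]; ring⟩
    have hcd : Continuous fun t => g (t + 1) - g t :=
      (hc.comp (continuous_id.add continuous_const)).sub hc
    obtain ⟨d, hd⟩ := h1 0
    refine ⟨d, fun t => ?_⟩
    by_contra hne
    obtain ⟨k, hk⟩ := h1 t
    have hkd : k ≠ d := by
      rintro rfl
      exact hne (by linarith)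
    -- intermediate value: a value which is not an integer
    have hmem : ∀ c ∈ uIcc (g (0 + 1) - g 0) (g (t + 1) - g t), ∃ s, g (s + 1) - g s = c := by
      intro c hcc
      have := intermediate_value_uIcc (a := (0 : ℝ)) (b := t) hcd.continuousOn hcc
      obtain ⟨s, -, hs⟩ := this
      exact ⟨s, hs⟩
    rw [hd, hk] at hmem
    rcases lt_or_gt_of_ne hkd with h | h
    · have h2 : (k : ℝ) + 1 ≤ d := by exact_mod_cast h
      obtain ⟨s, hs⟩ := hmem (k + 1 / 2) (by
        rw [mem_uIcc]; right; constructor <;> linarith)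
      obtain ⟨i, hi⟩ := h1 s
      rw [hi] at hs
      have h3 : ((2 * i : ℤ) : ℝ) = ((2 * k + 1 : ℤ) : ℝ) := by push_cast; linarith
      have h4 : 2 * i = 2 * k + 1 := by exact_mod_cast h3
      omega
    · have h2 : (d : ℝ) + 1 ≤ k := by exact_mod_cast h
      obtain ⟨s, hs⟩ := hmem (d + 1 / 2) (by
        rw [mem_uIcc]; left; constructor <;> linarith)
      obtain ⟨i, hi⟩ := h1 s
      rw [hi] at hs
      have h3 : ((2 * i : ℤ) : ℝ) = ((2 * d + 1 : ℤ) : ℝ) := by push_cast; linarith
      have h4 : 2 * i = 2 * d + 1 := by exact_mod_cast h3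
      omega
  have hdj : ∀ (j : ℕ) (t : ℝ), g (t + j) = g t + j * d := by
    intro j
    induction j with
    | zero => intro t; simp
    | succ j ih =>
      intro t
      push_cast
      rw [← add_assoc, hd, ih]
      ring
  have hdz : ∀ (j : ℤ) (t : ℝ), g (t + j) = g t + j * d := by
    intro j t
    rcases Int.eq_nat_or_neg j with ⟨k, rfl | rfl⟩
    · exact_mod_cast hdj k t
    · have := hdj k (t + ((-(k : ℤ) : ℤ) : ℝ))
      push_cast at this ⊢
      rw [show t + -(k : ℝ) + k = t by ring] at this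
      linarith
  -- the degree is not zero
  have hd0 : d ≠ 0 := by
    rintro rfl
    obtain ⟨t₀, ht₀, hmax⟩ := isCompact_Icc.exists_isMaxOn (nonempty_Icc.2 (zero_le_one (α := ℝ)))
      hc.continuousOn
    have hmax' : ∀ t, g t ≤ g t₀ := by
      intro t
      have h1 := hdz (-⌊t⌋) t
      rw [show (((0 : ℤ) : ℝ)) = 0 by norm_num, mul_zero, add_zero] at h1
      rw [← h1]
      apply hmax
      have h2 := Int.floor_le t
      have h3 := Int.lt_floor_add_one t
      constructor
      · push_cast; linarith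
      · push_cast; linarith
    -- two points near `t₀` with the same value
    have hl : g (t₀ - 1 / 4) < g t₀ := lt_of_le_of_ne (hmax' _) (by
      intro h
      obtain ⟨j, hj⟩ := hinj (t₀ - 1 / 4) t₀ ⟨0, by simpa using h⟩
      have h3 : ((4 * j : ℤ) : ℝ) = ((-1 : ℤ) : ℝ) := by push_cast; linarith
      have h4 : 4 * j = -1 := by exact_mod_cast h3
      omega)
    have hr : g (t₀ + 1 / 4) < g t₀ := lt_of_le_of_ne (hmax' _) (by
      intro h
      obtain ⟨j, hj⟩ := hinj (t₀ + 1 / 4) t₀ ⟨0, by simpa using h⟩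
      have h3 : ((4 * j : ℤ) : ℝ) = ((1 : ℤ) : ℝ) := by push_cast; linarith
      have h4 : 4 * j = 1 := by exact_mod_cast h3
      omega)
    set c := max (g (t₀ - 1 / 4)) (g (t₀ + 1 / 4)) with hcdef
    have hc1 : c < g t₀ := max_lt hl hr
    obtain ⟨s₁, hs₁, he₁⟩ := intermediate_value_Icc (by linarith : t₀ - 1 / 4 ≤ t₀)
      hc.continuousOn (show c ∈ Icc (g (t₀ - 1 / 4)) (g t₀) from ⟨le_max_left _ _, hc1.le⟩)
    obtain ⟨s₂, hs₂, he₂⟩ := intermediate_value_Icc' (by linarith : t₀ ≤ t₀ + 1 / 4)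
      hc.continuousOn (show c ∈ Icc (g (t₀ + 1 / 4)) (g t₀) from ⟨le_max_right _ _, hc1.le⟩)
    have hne1 : s₁ ≠ t₀ := by rintro rfl; exact absurd he₁ hc1.ne'
    have hne2 : s₂ ≠ t₀ := by rintro rfl; exact absurd he₂ hc1.ne'
    have h1 : s₁ < t₀ := lt_of_le_of_ne hs₁.2 hne1
    have h2 : t₀ < s₂ := lt_of_le_of_ne hs₂.1 (Ne.symm hne2)
    obtain ⟨j, hj⟩ := hinj s₂ s₁ ⟨0, by rw [he₁, he₂]; simp⟩
    have h3 : (0 : ℝ) < j := by linarith
    have h4 : (j : ℝ) < 1 := by linarith [hs₁.1, hs₂.2]
    have h5 : 0 < j := by exact_mod_cast h3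
    have h6 : j < 1 := by exact_mod_cast h4
    omega
  have hginj : Function.Injective g := by
    intro s t hst
    obtain ⟨j, hj⟩ := hinj s t ⟨0, by simpa using hst⟩
    rw [hj, hdz] at hst
    have h1 : (j : ℝ) * d = 0 := by linarith
    have h2 : (j : ℝ) = 0 := by
      rcases mul_eq_zero.1 h1 with h | h
      · exact h
      · exact absurd (by exact_mod_cast h) hd0
    rw [hj, h2, add_zero]
  rcases hc.strictMono_of_inj hginj with hm | ha
  · left
    refine ⟨hm, fun t => ?_⟩
    have hpos : 0 < d := by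
      have := hm (show (0 : ℝ) < 0 + 1 by norm_num)
      rw [hd] at this
      have : (0 : ℝ) < d := by linarith
      exact_mod_cast this
    have hle : d ≤ 1 := by
      by_contra hcon
      push Not at hcon
      have h2 : (2 : ℝ) ≤ d := by exact_mod_cast hcon
      obtain ⟨s, hs, hse⟩ := intermediate_value_Icc (show (0 : ℝ) ≤ 0 + 1 by norm_num)
        hc.continuousOn (show g 0 + 1 ∈ Icc (g 0) (g (0 + 1)) from
          ⟨by linarith, by rw [hd]; linarith⟩)
      obtain ⟨j, hj⟩ := hinj s 0 ⟨1, by simpa using hse⟩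
      rw [zero_add] at hj
      have hs1 : s ≤ 1 := by simpa using hs.2
      have hs0 : 0 ≤ s := hs.1
      have hj0 : (0 : ℝ) ≤ j := by linarith
      have hj1 : (j : ℝ) ≤ 1 := by linarith
      have hj0' : 0 ≤ j := by exact_mod_cast hj0
      have hj1' : j ≤ 1 := by exact_mod_cast hj1
      have h3 := hdz j 0
      rw [zero_add, ← hj, hse, hj] at h3
      have h4 : (1 : ℝ) = j * d := by linarith
      have h5 : (1 : ℤ) = j * d := by exact_mod_cast h4
      interval_cases j
      · simp at h5
      · omega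
    have : d = 1 := by omega
    rw [hd, this]
    simp
  · right
    refine ⟨ha, fun t => ?_⟩
    have hneg : d < 0 := by
      have := ha (show (0 : ℝ) < 0 + 1 by norm_num)
      rw [hd] at this
      have : (d : ℝ) < 0 := by linarith
      exact_mod_cast this
    have hge : -1 ≤ d := by
      by_contra hcon
      push Not at hcon
      have h2 : (d : ℝ) ≤ -2 := by
        have : d ≤ -2 := by omega
        exact_mod_cast this
      obtain ⟨s, hs, hse⟩ := intermediate_value_Icc' (show (0 : ℝ) ≤ 0 + 1 by norm_num)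
        hc.continuousOn (show g 0 - 1 ∈ Icc (g (0 + 1)) (g 0) from
          ⟨by rw [hd]; linarith, by linarith⟩)
      obtain ⟨j, hj⟩ := hinj s 0 ⟨-1, by rw [hse]; push_cast; ring⟩
      rw [zero_add] at hj
      have hs1 : s ≤ 1 := by simpa using hs.2
      have hs0 : 0 ≤ s := hs.1
      have hj0 : (0 : ℝ) ≤ j := by linarith
      have hj1 : (j : ℝ) ≤ 1 := by linarith
      have hj0' : 0 ≤ j := by exact_mod_cast hj0
      have hj1' : j ≤ 1 := by exact_mod_cast hj1
      have h3 := hdz j 0
      rw [zero_add, ← hj, hse, hj] at h3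
      have h4 : (-1 : ℝ) = j * d := by linarith
      have h5 : (-1 : ℤ) = j * d := by exact_mod_cast h4
      interval_cases j
      · simp at h5
      · omega
    have : d = -1 := by omega
    rw [hd, this]
    push_cast
    ring

end Pool.Agent.N813.PC
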