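import Pool.Agent.N813.PC.Defs
import Pool.Agent.N813.PC.Real
import Pool.Agent.N813.PC.Alt

/-!
# Project PC: periodic smooth closed curves of `Ω`-stable diffeomorphisms
-/

set_option autoImplicit false

open scoped Manifold ContDiff Topology
open Filter Set Metric

universe u v

namespace Pool.Agent.N813.PC

open Pool.Agent.H718R2.G Pool.Agent.W564.SC Pool.Agent.TH80.OMS Pool.Agent.TH290.CL
  Pool.Agent.N813.OF Pool.Agent.N813.CX Pool.Agent.Y504.CO

section

variable {n : ℕ} {N : Type u} [TopologicalSpace N] [ChartedSpace (V n) N] {r : ℕ∞}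

theorem fam_trans (F : DiffM n N r) {P : Type} [NormedAddCommGroup P] [NormedSpace ℝ P]
    {G : P → DiffM n N r} (hG : IsFam n N r G) : IsFam n N r (fun s => F.trans (G s)) := by
  intro y
  have h1 : ContMDiffAt (𝓘(ℝ, P).prod (𝓡 n)) (𝓘(ℝ, P).prod (𝓡 n)) r
      (fun q : P × N => ((q.1, F q.2) : P × N)) ((0 : P), y) :=
    (contMDiff_fst.prodMk (F.contMDiff.comp contMDiff_snd)).contMDiffAt
  exact ContMDiffAt.comp (g := fun q : P × N => G q.1 q.2)
    (f := fun q : P × N => ((q.1, F q.2) : P × N)) ((0 : P), y) (hG (F y)) h1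

variable {F : N → N} {z : N} {ψ : ℝ → N → N} {m : ℕ} {g : ℝ → ℝ}

theorem eqv (hψ : IsFlow n N ψ) (hfree : ∀ t : ℝ, ψ t z = z ↔ ∃ j : ℤ, t = j) (s t : ℝ) :
    ψ s z = ψ t z ↔ ∃ j : ℤ, s = t + j := by
  constructor
  · intro h
    have h2 : ψ (s - t) z = z := by
      have h3 : ψ (-t) (ψ s z) = ψ (-t) (ψ t z) := by rw [h]
      rw [← hψ.add, ← hψ.add, neg_add_cancel, hψ.zero, neg_add_eq_sub] at h3
      exact h3
    obtain ⟨j, hj⟩ := (hfree _).1 h2
    exact ⟨j, by linarith⟩
  · rintro ⟨j, rfl⟩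
    rw [hψ.add, (hfree j).2 ⟨j, rfl⟩]

theorem cont_line (hψ : IsFlow n N ψ) (z : N) : Continuous fun t : ℝ => ψ t z :=
  hψ.smooth.continuous.comp (continuous_id.prodMk continuous_const)

theorem compact_curve (hψ : IsFlow n N ψ) (hfree : ∀ t : ℝ, ψ t z = z ↔ ∃ j : ℤ, t = j) :
    IsCompact (range fun t : ℝ => ψ t z) := by
  have e : (range fun t : ℝ => ψ t z) = (fun t : ℝ => ψ t z) '' Icc 0 1 := by
    apply Subset.antisymm
    · rintro _ ⟨t, rfl⟩
      refine ⟨Int.fract t, ⟨Int.fract_nonneg t, (Int.fract_lt_one t).le⟩, ?_⟩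
      refine (eqv hψ hfree _ _).2 ⟨-⌊t⌋, ?_⟩
      push_cast
      rw [Int.fract]
      ring
    · rintro _ ⟨t, -, rfl⟩
      exact ⟨t, rfl⟩
  rw [e]
  exact isCompact_Icc.image (cont_line hψ z)

theorem iter_ret (h : PerCurve n N F z ψ m g) (q : ℕ) (t : ℝ) :
    F^[m * q] (ψ t z) = ψ (g^[q] t) z := by
  rw [Function.iterate_mul]
  induction q with
  | zero => rfl
  | succ q ih => rw [Function.iterate_succ_apply', ih, h.ret, Function.iterate_succ_apply']

theorem cases_g (hF : Function.Injective F) (h : PerCurve n N F z ψ m g) :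
    (StrictMono g ∧ ∀ t, g (t + 1) = g t + 1) ∨ (StrictAnti g ∧ ∀ t, g (t + 1) = g t - 1) := by
  apply lift_cases h.cont
  · intro t j
    apply (eqv h.flow h.free _ _).1
    rw [← h.ret, ← h.ret]
    congr 1
    exact (eqv h.flow h.free _ _).2 ⟨j, rfl⟩
  · intro s t hst
    have h1 := (eqv h.flow h.free _ _).2 hst
    rw [← h.ret, ← h.ret] at h1
    exact (eqv h.flow h.free _ _).1 (hF.iterate m h1)

end

section

variable {n : ℕ} {N : Type u} [TopologicalSpace N] [T2Space N] [CompactSpace N]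
  [ChartedSpace (V n) N] [IsManifold (𝓡 n) ∞ N] {r : ℕ∞} {F : DiffM n N r} {z : N}
  {ψ : ℝ → N → N} {m : ℕ} {g : ℝ → ℝ}

/-- the function which is one on the curve and zero on the other curves of the cycle -/
theorem exists_bump (h : PerCurve n N F z ψ m g) :
    ∃ ρ : N → ℝ, ContMDiff (𝓡 n) 𝓘(ℝ, ℝ) ∞ ρ ∧ (∀ t, ρ (ψ t z) = 1) ∧
      ∀ i, 0 < i → i < m → ∀ t, ρ (F^[i] (ψ t z)) = 0 := by
  set C : Set N := range fun t : ℝ => ψ t z with hC
  have hCc : IsCompact C := compact_curve h.flow h.free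
  set D : Set N := ⋃ i ∈ Finset.Ioo 0 m, F^[i] '' C with hD
  have hDc : IsCompact D := (Finset.Ioo 0 m).isCompact_biUnion fun i _ =>
    hCc.image (F.continuous.iterate i)
  have hdis : Disjoint D C := by
    rw [Set.disjoint_left]
    intro y hy hyC
    obtain ⟨i, hi, hy'⟩ := mem_iUnion₂.1 hy
    obtain ⟨_, ⟨s, rfl⟩, rfl⟩ := hy'
    obtain ⟨t, ht⟩ := hyC
    rw [Finset.mem_Ioo] at hi
    exact h.disj i hi.1 hi.2 s t ht.symm
  obtain ⟨f, hf0, hf1, -⟩ := exists_contMDiffMap_zero_one_of_isClosed (n := ⊤) (𝓡 n)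
    hDc.isClosed hCc.isClosed hdis
  refine ⟨f, f.contMDiff, fun t => hf1 ⟨t, rfl⟩, fun i hi1 hi2 t => hf0 ?_⟩
  exact mem_iUnion₂.2 ⟨i, Finset.mem_Ioo.2 ⟨hi1, hi2⟩, ⟨ψ t z, ⟨t, rfl⟩, rfl⟩⟩

/-- perturbations which rotate the curve -/
theorem exists_rot (hr : 1 ≤ r) (hF : OmegaStable n N r F) (h : PerCurve n N F z ψ m g) :
    ∃ (H : ℝ → DiffM n N r) (θ₀ : ℝ), 0 < θ₀ ∧ (∀ θ, |θ| < θ₀ → HypPer n (H θ)) ∧
      ∀ θ, |θ| < θ₀ → ∀ t, (H θ)^[m] (ψ t z) = ψ (θ + g t) z := by
  obtain ⟨U, hU, hFU, hyp⟩ := HYP.t n N r hr F hF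
  obtain ⟨ρ, hρ, hρ1, hρ0⟩ := exists_bump h
  set A : V 1 → N → N := fun s y => ψ (s 0) y with hAd
  have hA : ContMDiff ((𝓡 1).prod (𝓡 n)) (𝓡 n) ∞ (fun p : V 1 × N => A p.1 p.2) := by
    have h1 : ContMDiff ((𝓡 1).prod (𝓡 n)) (𝓘(ℝ, ℝ).prod (𝓡 n)) ∞
        (fun p : V 1 × N => ((p.1 0, p.2) : ℝ × N)) := by
      refine ContMDiff.prodMk ?_ contMDiff_snd
      have h2 : ContDiff ℝ ∞ (fun s : V 1 => s 0) :=
        (EuclideanSpace.proj (𝕜 := ℝ) (0 : Fin 1)).contDiff
      exact h2.contMDiff.comp contMDiff_fst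
    exact h.flow.smooth.comp h1
  have hA0 : ∀ y, A 0 y = y := fun y => h.flow.zero y
  have hadd : ∀ s t y, A (s + t) y = A s (A t y) := fun s t y => h.flow.add _ _ _
  obtain ⟨G, κ, hκ, hG0, hGf, hG⟩ := Pool.Agent.TH80.CLX.act_fam hA hρ hA0 hadd r
    (Diffeomorph.refl (𝓡 n) N r)
  have hfam := fam_trans F hGf
  obtain ⟨κ', hκ', hmem⟩ := Pool.Agent.TH80.CLX.fam_mem r hr _ hfam z U hU (by
    have e : F.trans (G 0) = F := by
      rw [hG0]
      ext y
      rfl
    rw [e]
    exact hFU)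
  have hnorm : ∀ θ : ℝ, ‖(EuclideanSpace.single (0 : Fin 1) θ : V 1)‖ = |θ| := fun θ => by
    rw [PiLp.norm_single, Real.norm_eq_abs]
  refine ⟨fun θ => F.trans (G (EuclideanSpace.single (0 : Fin 1) θ)), min κ κ', lt_min hκ hκ',
    fun θ hθ => ?_, fun θ hθ t => ?_⟩
  · exact hyp _ (hmem _ (by rw [hnorm]; exact lt_of_lt_of_le hθ (min_le_right _ _)))
  · have hHe : ∀ y, (F.trans (G (EuclideanSpace.single (0 : Fin 1) θ))) y =
        ψ (ρ (F y) * θ) (F y) := by
      intro y
      show G _ (F y) = _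
      rw [hG _ (by rw [hnorm]; exact lt_of_lt_of_le hθ (min_le_left _ _))]
      show ψ _ (F y) = _
      congr 1
    show (F.trans (G (EuclideanSpace.single (0 : Fin 1) θ)))^[m] (ψ t z) = ψ (θ + g t) z
    generalize F.trans (G (EuclideanSpace.single (0 : Fin 1) θ)) = H at hHe ⊢
    have hit : ∀ i, i < m → H^[i] (ψ t z) = F^[i] (ψ t z) := by
      intro i
      induction i with
      | zero => intro _; rfl
      | succ i ih =>
        intro hi
        rw [Function.iterate_succ_apply', ih (by omega), hHe, ← Function.iterate_succ_apply' F,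
          hρ0 (i + 1) (by omega) hi, zero_mul, h.flow.zero]
    have hpos := h.pos
    obtain ⟨i, rfl⟩ : ∃ i, m = i + 1 := ⟨m - 1, by omega⟩
    show H^[i + 1] (ψ t z) = _
    rw [Function.iterate_succ_apply', hit i (by omega), hHe, ← Function.iterate_succ_apply' F,
      h.ret, hρ1, one_mul, h.flow.add]

/-- the family of the return maps -/
theorem exists_fam (hr : 1 ≤ r) (hF : OmegaStable n N r F) (h : PerCurve n N F z ψ m g)
    (hm : StrictMono g) (h1 : ∀ t, g (t + 1) = g t + 1) :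
    ∃ θ₀ : ℝ, 0 < θ₀ ∧ Fam1 (fun θ t => θ + g t) ∧ NoTan (fun θ t => θ + g t) θ₀ := by
  obtain ⟨H, θ₀, hθ₀, hhyp, hret⟩ := exists_rot hr hF h
  refine ⟨θ₀, hθ₀, ⟨continuous_fst.add (h.cont.comp continuous_snd), fun θ s t hst => ?_,
    fun θ t => ?_, fun θ θ' t _ => ?_⟩, ?_⟩
  · show θ + g s < θ + g t
    have := hm hst
    linarith
  · show θ + g (t + 1) = θ + g t + 1
    rw [h1]
    ring
  · show θ + g t + (θ' - θ) ≤ θ' + g t
    linarith
  intro θ q p t hθ hq hper
  set Gθ : ℝ → ℝ := fun t => θ + g t with hGθ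
  have hretq : ∀ (q : ℕ) (s : ℝ), (H θ)^[m * q] (ψ s z) = ψ (Gθ^[q] s) z := by
    intro q s
    rw [Function.iterate_mul]
    induction q with
    | zero => rfl
    | succ q ih => rw [Function.iterate_succ_apply', ih, hret θ hθ, Function.iterate_succ_apply']
  have hper' : Gθ^[q] t = t + p := hper
  have key : ¬ ((∀ᶠ s in 𝓝 t, s + p ≤ Gθ^[q] s) ∨ ∀ᶠ s in 𝓝 t, Gθ^[q] s ≤ s + p) := by
    intro hcase
    have hGc : Continuous Gθ := continuous_const.add h.cont
    have hh : Continuous fun s : ℝ => Gθ^[q] (t + s) - t - p :=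
      (((hGc.iterate q).comp (continuous_const.add continuous_id)).sub continuous_const).sub
        continuous_const
    have h0 : Gθ^[q] (t + 0) - t - p = 0 := by
      rw [add_zero, hper']
      ring
    have hre : ∀ s : ℝ, (H θ)^[m * q] (ψ s (ψ t z)) = ψ (Gθ^[q] (t + s) - t - p) (ψ t z) := by
      intro s
      rw [← h.flow.add, hretq, ← h.flow.add, add_comm s t]
      refine (eqv h.flow h.free _ _).2 ⟨p, by ring⟩
    have hmq : 1 ≤ m * q := Nat.mul_pos h.pos hq
    have hpy : (H θ)^[m * q] (ψ t z) = ψ t z := by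
      have h1 := hre 0
      rw [h0, h.flow.zero] at h1
      exact h1
    have htd : Tendsto (fun s : ℝ => t + s) (𝓝 0) (𝓝 t) := by
      have h1 : Continuous fun s : ℝ => t + s := continuous_const.add continuous_id
      have h2 := h1.tendsto 0
      rw [add_zero] at h2
      exact h2
    have hcase' : (∀ᶠ s in 𝓝 (0 : ℝ), s ≤ Gθ^[q] (t + s) - t - p) ∨
        ∀ᶠ s in 𝓝 (0 : ℝ), Gθ^[q] (t + s) - t - p ≤ s := by
      rcases hcase with h | h
      · left
        filter_upwards [htd.eventually h] with s hs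
        linarith
      · right
        filter_upwards [htd.eventually h] with s hs
        linarith
    have hχ : chartAt (V n) (ψ t z) ∈ IsManifold.maximalAtlas (𝓡 n) ∞ N :=
      IsManifold.chart_mem_maximalAtlas _
    have hys := mem_chart_source (V n) (ψ t z)
    have hhalf : ψ (1 / 2) (ψ t z) ≠ ψ t z := by
      rw [← h.flow.add]
      intro he
      obtain ⟨j, hj⟩ := (eqv h.flow h.free _ _).1 he
      have h2 : (2 * j : ℤ) = 1 := by
        have : (2 * (j : ℝ)) = 1 := by linarith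
        exact_mod_cast this
      omega
    obtain ⟨D, hD, hE⟩ := TAN.t n N r hr (H θ) ψ h.flow (ψ t z) (m * q)
      (fun s : ℝ => Gθ^[q] (t + s) - t - p) hmq ⟨1 / 2, hhalf⟩ hh h0
      (Eventually.of_forall hre) hcase' _ hχ hys
    exact hhyp θ hθ (m * q) (ψ t z) hmq hpy _ hχ hys D hD 1 hE norm_one
  exact ⟨fun h => key (Or.inl h), fun h => key (Or.inr h)⟩

/-- the dynamics of an iterate on the curve -/
theorem curve_dyn (hr : 1 ≤ r) (hF : OmegaStable n N r F) (h : PerCurve n N F z ψ m g) :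
    ∃ (M : ℕ) (k : ℝ → ℝ), 1 ≤ M ∧ Continuous k ∧ Monotone k ∧ (∀ s, k (s + 1) = k s + 1) ∧
      (∃ t, k t = t) ∧ ∀ s, F^[M] (ψ s z) = ψ (k s) z := by
  rcases cases_g F.injective h with ⟨hm, h1⟩ | ⟨ha, h1⟩
  · obtain ⟨θ₀, hθ₀, hfam, hnt⟩ := exists_fam hr hF h hm h1
    obtain ⟨q, p, t, hq, ht⟩ := LOCK1.t _ θ₀ hθ₀ hfam hnt
    have e : (fun t => (0 : ℝ) + g t) = g := by
      funext t
      rw [zero_add]
    have ht' : g^[q] t = t + p := by
      have := ht
      rw [e] at this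
      exact this
    obtain ⟨g1, g2, g3⟩ := iter_lift h.cont hm h1 q
    refine ⟨m * q, fun s => g^[q] s - p, Nat.mul_pos h.pos hq, g1.sub continuous_const,
      fun s s' hs => by simpa using g2.monotone hs, fun s => by
        show g^[q] (s + 1) - p = g^[q] s - p + 1
        rw [g3]; ring, ⟨t, by show g^[q] t - p = t; rw [ht']; ring⟩,
      fun s => ?_⟩
    rw [iter_ret h]
    exact (eqv h.flow h.free _ _).2 ⟨p, by ring⟩
  · have hm : StrictMono (g ∘ g) := ha.comp ha
    have hm1 : ∀ t, g (t - 1) = g t + 1 := by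
      intro t
      have := h1 (t - 1)
      rw [sub_add_cancel] at this
      linarith
    refine ⟨m * 2, g ∘ g, by have := h.pos; omega, h.cont.comp h.cont, hm.monotone, fun s => ?_,
      ?_, fun s => iter_ret h 2 s⟩
    · show g (g (s + 1)) = g (g s) + 1
      rw [h1, hm1]
    · have hk : ∀ k : ℕ, g k = g 0 - k ∧ g (-k) = g 0 + k := by
        intro k
        induction k with
        | zero => simp
        | succ k ih =>
          constructor
          · push_cast
            rw [h1, ih.1]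
            ring
          · push_cast
            rw [show -((k : ℝ) + 1) = -k - 1 by ring, hm1, ih.2]
            ring
      obtain ⟨k, hk0⟩ := exists_nat_gt |g 0|
      obtain ⟨t, -, ht⟩ := intermediate_value_Icc' (show (-k : ℝ) ≤ k by
          have : (0 : ℝ) ≤ k := Nat.cast_nonneg k
          linarith) (f := fun t => g t - t) (h.cont.sub continuous_id).continuousOn
        (show (0 : ℝ) ∈ Icc (g k - k) (g (-k) - -k) from by
          rw [(hk k).1, (hk k).2]
          have := abs_lt.1 hk0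
          constructor <;> linarith [this.1, this.2])
      refine ⟨t, ?_⟩
      have ht' : g t = t := by
        have : g t - t = 0 := ht
        linarith
      show g (g t) = t
      rw [ht', ht']

/-- the periodic points on the curve are isolated -/
theorem exists_iso (h : PerCurve n N F z ψ m g) {M : ℕ} {k : ℝ → ℝ}
    (hk : ∀ s, F^[M] (ψ s z) = ψ (k s) z) (hfin : {x | F^[M] x = x}.Finite) (w : ℝ) :
    ∃ ε : ℝ, 0 < ε ∧ ε ≤ 1 / 2 ∧ ∀ s, |s - w| < ε → k s = s → s = w := by
  have hS : {s : ℝ | |s - w| ≤ 1 / 4 ∧ k s = s ∧ s ≠ w}.Finite := by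
    refine Set.Finite.of_finite_image (f := fun s => ψ s z) (hfin.subset ?_) ?_
    · rintro _ ⟨s, ⟨-, hs, -⟩, rfl⟩
      show F^[M] (ψ s z) = ψ s z
      rw [hk, hs]
    · rintro s ⟨hs, -⟩ s' ⟨hs', -⟩ he
      obtain ⟨j, hj⟩ := (eqv h.flow h.free _ _).1 he
      have h2 := abs_le.1 hs
      have h3 := abs_le.1 hs'
      have e3 : (-1 : ℝ) < j := by linarith [h2.1, h3.2]
      have e4 : (j : ℝ) < 1 := by linarith [h2.2, h3.1]
      have e5 : -1 < j := by exact_mod_cast e3
      have e6 : j < 1 := by exact_mod_cast e4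
      have e7 : j = 0 := by omega
      rw [e7] at hj
      simpa using hj
  have hW : {s : ℝ | |s - w| ≤ 1 / 4 ∧ k s = s ∧ s ≠ w}ᶜ ∈ 𝓝 w :=
    hS.isClosed.isOpen_compl.mem_nhds (fun h => h.2.2 rfl)
  obtain ⟨ε, hε, hεW⟩ := Metric.mem_nhds_iff.1 hW
  refine ⟨min ε (1 / 4), lt_min hε (by norm_num), (min_le_right _ _).trans (by norm_num),
    fun s hs hks => ?_⟩
  by_contra hne
  exact hεW (show s ∈ ball w ε from by
    rw [mem_ball, Real.dist_eq]
    exact lt_of_lt_of_le hs (min_le_left _ _)) ⟨(hs.le.trans (min_le_right _ _)), hks, hne⟩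

/-- there is no one-sided tangency on the curve -/
theorem no_tan (hr : 1 ≤ r) (hF : OmegaStable n N r F) (h : PerCurve n N F z ψ m g) {M : ℕ}
    (hM : 1 ≤ M) {k : ℝ → ℝ} (hkc : Continuous k) (hk : ∀ s, F^[M] (ψ s z) = ψ (k s) z) {w : ℝ}
    (hw : k w = w) : ¬ ((∀ᶠ s in 𝓝 w, s ≤ k s) ∨ ∀ᶠ s in 𝓝 w, k s ≤ s) := by
  intro hcase
  obtain ⟨U, hU, hFU, hyp⟩ := HYP.t n N r hr F hF
  have htd : Tendsto (fun s : ℝ => w + s) (𝓝 0) (𝓝 w) := by
    have h1 : Continuous fun s : ℝ => w + s := continuous_const.add continuous_id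
    have h2 := h1.tendsto 0
    rw [add_zero] at h2
    exact h2
  have hcase' : (∀ᶠ s in 𝓝 (0 : ℝ), s ≤ k (w + s) - w) ∨
      ∀ᶠ s in 𝓝 (0 : ℝ), k (w + s) - w ≤ s := by
    rcases hcase with h | h
    · left
      filter_upwards [htd.eventually h] with s hs
      linarith
    · right
      filter_upwards [htd.eventually h] with s hs
      linarith
  have hhalf : ψ (1 / 2) (ψ w z) ≠ ψ w z := by
    rw [← h.flow.add]
    intro he
    obtain ⟨j, hj⟩ := (eqv h.flow h.free _ _).1 he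
    have h2 : (2 * j : ℤ) = 1 := by
      have : (2 * (j : ℝ)) = 1 := by linarith
      exact_mod_cast this
    omega
  have hχ : chartAt (V n) (ψ w z) ∈ IsManifold.maximalAtlas (𝓡 n) ∞ N :=
    IsManifold.chart_mem_maximalAtlas _
  have hys := mem_chart_source (V n) (ψ w z)
  obtain ⟨D, hD, hE⟩ := TAN.t n N r hr F ψ h.flow (ψ w z) M (fun s : ℝ => k (w + s) - w) hM
    ⟨1 / 2, hhalf⟩ ((hkc.comp (continuous_const.add continuous_id)).sub continuous_const)
    (by rw [add_zero, hw, sub_self]) (Eventually.of_forall fun s => by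
      rw [← h.flow.add, hk, ← h.flow.add]
      congr 1
      rw [add_comm s w]
      ring) hcase' _ hχ hys
  exact hyp F hFU M (ψ w z) hM (by rw [hk, hw]) _ hχ hys D hD 1 hE norm_one

/-- the dynamics on a periodic smooth closed curve of an `Ω`-stable diffeomorphism -/
theorem curve_main (hr : 1 ≤ r) (hF : OmegaStable n N r F) (h : PerCurve n N F z ψ m g) :
    ∃ M : ℕ, MorseSmaleOn F z ψ M := by
  obtain ⟨M, k, hM, hkc, hkm, hk1, ⟨t, ht⟩, hk⟩ := curve_dyn hr hF h
  obtain ⟨U, -, hFU, hfin'⟩ := finite_per hr hF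
  have hfin := hfin' F hFU M hM
  have hj : ∀ (s : ℝ) (j : ℕ), F^[M * j] (ψ s z) = ψ (k^[j] s) z := by
    intro s j
    rw [Function.iterate_mul]
    induction j with
    | zero => rfl
    | succ j ih => rw [Function.iterate_succ_apply', ih, hk, Function.iterate_succ_apply']
  have hlimk : ∀ s, ∃ w, k w = w ∧ Tendsto (fun j : ℕ => k^[j] s) atTop (𝓝 w) := fun s =>
    lim_fix hkc hkm hk1 ht s
  have hup : ∀ s w, Tendsto (fun j : ℕ => k^[j] s) atTop (𝓝 w) →
      Tendsto (fun j : ℕ => F^[M * j] (ψ s z)) atTop (𝓝 (ψ w z)) := by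
    intro s w hl
    simp only [hj]
    exact ((cont_line h.flow z).tendsto w).comp hl
  refine ⟨M, hM, ⟨t, by rw [hk, ht]⟩, hfin.subset fun x hx => hx.2, fun s => ?_, fun w hw => ?_,
    fun s hs => ?_⟩
  · obtain ⟨w, hw, hl⟩ := hlimk s
    exact ⟨w, by rw [hk, hw], hup s w hl⟩
  · -- `w` is a fixed point of `k`
    obtain ⟨w₁, hw₁, hl₁⟩ := hlimk w
    have hkw : k w = w := by
      rw [hk] at hw
      obtain ⟨i, hi⟩ := (eqv h.flow h.free _ _).1 hw
      -- the orbit of `w` under `k` converges, so `i = 0`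
      have hit : ∀ j : ℕ, k^[j] w = w + j * i := by
        have hki : ∀ (j : ℤ) (s : ℝ), k (s + j) = k s + j := by
          intro j s
          let f : CircleDeg1Lift := ⟨⟨k, hkm⟩, hk1⟩
          exact f.map_add_int s j
        intro j
        induction j with
        | zero => simp
        | succ j ih =>
          rw [Function.iterate_succ_apply', ih]
          have := hki (j * i) w
          push_cast at this ⊢
          rw [this, hi]
          ring
      by_contra hne
      have hi0 : (i : ℝ) ≠ 0 := by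
        intro h0
        rw [h0, add_zero] at hi
        exact hne hi
      have h3 : Tendsto (fun j : ℕ => k^[j + 1] w - k^[j] w) atTop (𝓝 (w₁ - w₁)) :=
        ((tendsto_add_atTop_iff_nat 1).2 hl₁).sub hl₁
      have h4 : (fun j : ℕ => k^[j + 1] w - k^[j] w) = fun _ => (i : ℝ) := by
        funext j
        rw [hit, hit]
        push_cast
        ring
      rw [h4, sub_self] at h3
      exact hi0 (tendsto_nhds_unique tendsto_const_nhds h3)
    obtain ⟨ε, hε, hε1, hiso⟩ := exists_iso h hk hfin w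
    have hno := no_tan hr hF h hM hkc hk hkw
    refine ⟨ε, hε, ?_⟩
    rcases alt_real hkc hkm hk1 hkw hε hε1 hiso (fun h => hno (Or.inl h))
      (fun h => hno (Or.inr h)) with h2 | h2
    · left
      exact fun s hs => hup s w (h2 s hs)
    · right
      intro s hs0 hs hl
      obtain ⟨w', hw', hl'⟩ := hlimk s
      exact h2 s hs0 hs w' hl' ((eqv h.flow h.free _ _).1 (tendsto_nhds_unique (hup s w' hl') hl))
  · obtain ⟨w, hw, hl⟩ := hlimk s
    have hl := hup s w hl
    obtain ⟨i, hi, hper⟩ := per_of_lim F.continuous hM hs (by rw [hk, hw]) hl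
    have hconst : ∀ j : ℕ, F^[M * (i * j)] (ψ s z) = ψ s z := by
      intro j
      rw [show M * (i * j) = i * (M * j) by ring, Function.iterate_mul]
      exact Function.iterate_fixed hper _
    have hl2 : Tendsto (fun j : ℕ => F^[M * (i * j)] (ψ s z)) atTop (𝓝 (ψ w z)) :=
      hl.comp (tendsto_id.const_mul_atTop' (by omega))
    simp only [hconst] at hl2
    have e := tendsto_nhds_unique tendsto_const_nhds hl2
    rw [e, hk, hw]

/-- the main theorem, part 2: disjoint periodic curves are countable -/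
theorem countable_curves (hr : 1 ≤ r) (hF : OmegaStable n N r F) {ι : Type v} (z : ι → N)
    (ψ : ι → ℝ → N → N) (m : ι → ℕ) (g : ι → ℝ → ℝ)
    (h : ∀ i, PerCurve n N F (z i) (ψ i) (m i) (g i))
    (hd : ∀ i j, i ≠ j → ∀ s t, ψ i s (z i) ≠ ψ j t (z j)) : Countable ι := by
  have hper : ∀ i, ∃ t, ψ i t (z i) ∈ Per F := by
    intro i
    obtain ⟨M, hM⟩ := curve_main hr hF (h i)
    obtain ⟨t, ht⟩ := hM.ex
    exact ⟨t, M, hM.pos, ht⟩
  choose t ht using hper
  obtain ⟨U, -, hFU, hfin⟩ := finite_per hr hF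
  have hc : (Per F).Countable := by
    refine (countable_iUnion fun k : ℕ => (hfin F hFU (k + 1) (by omega)).countable).mono ?_
    rintro x ⟨k, hk, hx⟩
    refine mem_iUnion.2 ⟨k - 1, ?_⟩
    show F^[k - 1 + 1] x = x
    rw [Nat.sub_add_cancel hk]
    exact hx
  have hinj : Function.Injective fun i => (⟨ψ i (t i) (z i), ht i⟩ : Per F) := by
    intro i j hij
    by_contra hne
    exact hd i j hne _ _ (congrArg Subtype.val hij)
  haveI := hc.to_subtype
  exact hinj.countable

/-- the main theorem, part 3 -/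
theorem wild_main (hr : 1 ≤ r) (hF : OmegaStable n N r F) (hW : (Wild n N F).Countable) :
    FiniteNoCycle F ∧ ∀ p ∈ Omega F, IsHyperbolicPer n F p := by
  apply Gen.stable hr hF
  refine hW.mono ?_
  rintro z ⟨hz, hzp⟩
  refine ⟨hz, hzp, ?_, ?_⟩
  · rintro ⟨ψ, m, g, h⟩
    obtain ⟨M, hM⟩ := curve_main hr hF h
    apply hzp
    have := hM.recur 0 (by rw [h.flow.zero]; exact hz)
    rw [h.flow.zero] at this
    exact ⟨M, hM.pos, this⟩
  · obtain ⟨U, -, hFU, hno⟩ := no_homPer hr hF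
    exact hno F hFU z

end

end Pool.Agent.N813.PC
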